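import Mathlib

/-!
# The conjectured value of `∑ k P_k C(2k,k)^2 / (-8)^k` modulo `p^2` is wrong

Part (b) of the question fails for `p = 11` (a prime `3 mod 8`) and for `p = 17`
(a prime `1 mod 8`).
-/

open Finset

namespace Pool.Agent.Results.MP_025f5d_nt.PellIndexSumFails

/-- The Pell numbers. -/
def pell : ℕ → ℤ
  | 0 => 0
  | 1 => 1
  | n + 2 => 2 * pell (n + 1) + pell n

/-- `S_1(p) = ∑_{k<p} P_k C(2k,k)^2 / (-8)^k`. -/
def S1 (p : ℕ) : ℚ := ∑ k ∈ range p, (pell k : ℚ) / (-8) ^ k * ((2 * k).choose k : ℚ) ^ 2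

/-- `S_2(p) = ∑_{k<p} k P_k C(2k,k)^2 / (-8)^k`. -/
def S2 (p : ℕ) : ℚ :=
  ∑ k ∈ range p, (k : ℚ) * (pell k : ℚ) / (-8) ^ k * ((2 * k).choose k : ℚ) ^ 2

/-- Congruence of rational numbers modulo `p^m`: the difference is `p^m` times a rational number
whose denominator is prime to `p`. -/
def Congr (p m : ℕ) (a b : ℚ) : Prop := ∃ c : ℚ, ¬ p ∣ c.den ∧ a - b = (p : ℚ) ^ m * c

/-- Part (a) for the prime `p` and the integer `x`. -/
def PartA (p : ℕ) (x : ℤ) : Prop :=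
  (p % 8 = 1 → Congr p 2 (S1 p) 0) ∧
  (p % 8 = 3 → Congr p 2 (S1 p) ((-1) ^ ((p - 3) / 8) * ((p : ℚ) / (2 * x) - 2 * x)))

/-- Part (b) for the prime `p` and the integer `x`. -/
def PartB (p : ℕ) (x : ℤ) : Prop :=
  Congr p 2 (S2 p) ((-1) ^ ((x + 1) / 2) / 2 * ((x : ℚ) + (p : ℚ) / (2 * x)))

theorem not_congr (p m : ℕ) (hp : p.Prime) (a b : ℚ) (D N : ℤ) (h : (D : ℚ) * (a - b) = N)
    (hN : ¬ (p : ℤ) ^ m ∣ N) : ¬ Congr p m a b := by
  rintro ⟨c, hc, hab⟩
  apply hN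
  rw [hab] at h
  have hc0 : (c.den : ℚ) ≠ 0 := by exact_mod_cast c.den_nz
  have h1 : (N : ℚ) * c.den = (D : ℚ) * (p : ℚ) ^ m * c.num := by
    rw [← h]
    have h2 : c * c.den = c.num := Rat.mul_den_eq_num c
    calc (D : ℚ) * ((p : ℚ) ^ m * c) * c.den = (D : ℚ) * (p : ℚ) ^ m * (c * c.den) := by ring
      _ = _ := by rw [h2]
  have h3 : N * (c.den : ℤ) = D * (p : ℤ) ^ m * c.num := by exact_mod_cast h1
  have h4 : (p : ℤ) ^ m ∣ N * (c.den : ℤ) := by
    rw [h3]; exact ⟨D * c.num, by ring⟩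
  have h5 : IsCoprime ((p : ℤ) ^ m) (c.den : ℤ) := by
    apply IsCoprime.pow_left
    rw [Nat.isCoprime_iff_coprime]
    exact (hp.coprime_iff_not_dvd).2 hc
  exact h5.dvd_of_dvd_mul_right h4

theorem S2_eleven : S2 11 = 10511899495407 / 16777216 := by
  unfold S2
  simp only [Finset.sum_range_succ, Finset.sum_range_zero, pell]
  norm_num [Nat.choose]

theorem S2_seventeen : S2 17 = 2202323663650282434125 / 274877906944 := by
  unfold S2
  simp only [Finset.sum_range_succ, Finset.sum_range_zero, pell]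
  norm_num [Nat.choose]

theorem fail_eleven : ¬ PartB 11 3 := by
  unfold PartB
  refine not_congr 11 2 (by norm_num) _ _ 50331648 31535576851405 ?_ (by norm_num)
  rw [S2_eleven]
  norm_num

theorem fail_seventeen : ¬ PartB 17 3 := by
  unfold PartB
  refine not_congr 17 2 (by norm_num) _ _ 824633720832 6606970988545665616615 ?_ (by norm_num)
  rw [S2_seventeen]
  norm_num

/-- Part (b) of Question 1 fails at `p = 11` and at `p = 17` (in both cases `x = 3`), so that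
Question 1 has a negative answer. -/
theorem result :
    (¬ PartB 11 3 ∧ ¬ PartB 17 3) ∧
    ¬ ∀ p : ℕ, p.Prime → 3 < p → (p % 8 = 1 ∨ p % 8 = 3) →
      ∀ x y : ℤ, (p : ℤ) = x ^ 2 + 2 * y ^ 2 → (x % 8 = 1 ∨ x % 8 = 3) →
        PartA p x ∧ PartB p x := by
  refine ⟨⟨fail_eleven, fail_seventeen⟩, ?_⟩
  intro h
  exact fail_eleven (h 11 (by norm_num) (by norm_num) (Or.inr (by norm_num)) 3 1 (by norm_num)
    (Or.inr (by norm_num))).2

end Pool.Agent.Results.MP_025f5d_nt.PellIndexSumFails
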